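import Pool.Agent.H89.U3.Stmts
import Pool.Agent.H34.U.BLK

/-!
# Project U3 (MP_0c7934_co), module TRI: the matrices of BLK in families

The triple products of the block matrices determine the sequences, locally in the parameter.
-/

namespace Pool.Agent.H50.U3

open Matrix Pool.Agent.H26.U Pool.Agent.H54.Etf Pool.Agent.H37.Etf Pool.Agent.H34.U
  Pool.Agent.H89.MOD Pool.Agent.H89.U3
open scoped Kronecker

set_option linter.unusedSectionVars false

variable {K : ℕ} {ι : Type} [Fintype ι] [DecidableEq ι]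
  {H : Type} [AddCommGroup H] [Fintype H] [DecidableEq H]

/-- the block matrix -/
noncomputable def Sb (F : FlatCAR K ι) (t : H) (f : Fin K → H → ℂ) :
    Matrix (H × ι) (H × ι) ℂ := Xm F f + (Xm F f)ᴴ + Ym F t

lemma Sb_apply (F : FlatCAR K ι) (t : H) (f : Fin K → H → ℂ) (g h : H) (a b : ι) :
    Sb F t f (g, a) (h, b) =
      (∑ j, f j (g - h) * F.φ j a b) + (∑ j, star (f j (h - g)) * star (F.φ j b a)) +
        ((if g = h then F.G a b else 0) + if g - h = t then F.A a b else 0) := by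
  rw [Sb, Matrix.add_apply, Matrix.add_apply, Xm_conj, Xm, Ym, Matrix.add_apply, Matrix.sum_apply,
    Matrix.sum_apply]
  simp only [kroneckerMap_apply, circulant_apply, conjTranspose_apply, one_apply,
    Pi.single_apply, ite_mul, one_mul, zero_mul]

/-- the hypothesis of BLK on the modulus -/
def Hp (t : H) (f : Fin K → H → ℂ) : Prop :=
  ∀ h, h ≠ 0 → h ≠ t → ∃ j, ((‖f j h‖ = 1 ∧ f j (-h) = 0) ∨ (f j h = 0 ∧ ‖f j (-h)‖ = 1)) ∧
    ∀ i, i ≠ j → f i h = 0 ∧ f i (-h) = 0

/-- the block matrix is a Hermitian conference matrix -/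
lemma sig_Sb (F : FlatCAR K ι) {t : H} (ht0 : t ≠ 0) (ht : t + t = 0) {f : Fin K → H → ℂ}
    (hf0 : ∀ j, f j 0 = 0 ∧ f j t = 0) (hf : Hp t f)
    (hx : ∀ x, x ≠ 0 → ∑ j, acf (f j) x = 0) : Sig (Sb F t f) := by
  have hn : -t = t := neg_eq_of_add_eq_zero_left ht
  refine ⟨?_, ?_, ?_, ?_⟩
  · rw [Sb, IsHermitian, conjTranspose_add, conjTranspose_add, conjTranspose_conjTranspose,
      Ym_herm F t ht, add_comm (Xm F f)ᴴ]
  · rintro ⟨g, a⟩
    rw [Sb_apply, sub_self, if_pos rfl, if_neg (Ne.symm ht0), F.G_diag]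
    simp [(hf0 _).1]
  · rintro ⟨g, a⟩ ⟨h, b⟩ hne
    rw [Sb_apply]
    by_cases h1 : g = h
    · subst h1
      have hab : a ≠ b := fun h => hne (by rw [h])
      rw [sub_self, if_pos rfl, if_neg (Ne.symm ht0)]
      simp only [(hf0 _).1, zero_mul, star_zero, Finset.sum_const_zero, zero_add, add_zero]
      exact F.G_norm a b hab
    · by_cases h2 : g - h = t
      · have h3 : h - g = t := by rw [← hn, ← h2, neg_sub]
        rw [if_neg h1, h2, h3, if_pos rfl]
        simp only [(hf0 _).2, zero_mul, star_zero, Finset.sum_const_zero, zero_add]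
        exact F.A_norm a b
      · rw [if_neg h1, if_neg h2, add_zero, add_zero]
        obtain ⟨j, hj, hi⟩ := hf (g - h) (sub_ne_zero.mpr h1) h2
        have h4 : h - g = -(g - h) := by rw [neg_sub]
        rw [h4, Finset.sum_eq_single j, Finset.sum_eq_single j]
        · rcases hj with ⟨h5, h6⟩ | ⟨h5, h6⟩
          · rw [h6, star_zero, zero_mul, add_zero, norm_mul, h5, F.φ_norm, one_mul]
          · rw [h5, zero_mul, zero_add, norm_mul, norm_star, norm_star, h6, F.φ_norm, one_mul]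
        · intro i _ hij
          rw [(hi i hij).2, star_zero, zero_mul]
        · intro h; exact absurd (Finset.mem_univ j) h
        · intro i _ hij
          rw [(hi i hij).1, zero_mul]
        · intro h; exact absurd (Finset.mem_univ j) h
  · have hXY := Xm_Ym F f t
    have hXY' : (Xm F f)ᴴ * Ym F t + Ym F t * (Xm F f)ᴴ = 0 := by
      have h1 := congrArg conjTranspose hXY
      rw [conjTranspose_add, conjTranspose_mul, conjTranspose_mul, Ym_herm F t ht,
        conjTranspose_zero, add_comm] at h1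
      exact h1
    have hX2 := Xm_sq F f
    have hX2' : (Xm F f)ᴴ * (Xm F f)ᴴ = 0 := by
      rw [← conjTranspose_mul, hX2, conjTranspose_zero]
    have hA := Xm_anti F f
    rw [circ_sum f _ (acf_zero_sum f t ht0 ht hf0 hf) hx] at hA
    calc Sb F t f * Sb F t f
        = Xm F f * Xm F f + (Xm F f)ᴴ * (Xm F f)ᴴ + (Xm F f * (Xm F f)ᴴ + (Xm F f)ᴴ * Xm F f) +
          (Xm F f * Ym F t + Ym F t * Xm F f) + ((Xm F f)ᴴ * Ym F t + Ym F t * (Xm F f)ᴴ) +
          Ym F t * Ym F t := by rw [Sb]; noncomm_ring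
      _ = _ := by
          rw [hX2, hX2', hXY, hXY', hA, Ym_sq F t ht, smul_kronecker, kronecker_smul,
            one_kronecker_one, smul_smul, Fintype.card_prod]
          simp only [zero_add, add_zero]
          rw [← add_smul]
          congr 1
          push_cast
          ring

/-- continuity of the block matrix -/
lemma cont_Sb {X : Type*} [TopologicalSpace X] (F : FlatCAR K ι) (t : H)
    {f : X → Fin K → H → ℂ} (hf : Continuous f) : Continuous (fun s => Sb F t (f s)) := by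
  have h0 : ∀ j x, Continuous (fun s => f s j x) := fun j x =>
    (continuous_apply x).comp ((continuous_apply j).comp hf)
  refine continuous_matrix ?_
  rintro ⟨g, a⟩ ⟨h, b⟩
  simp only [Sb_apply]
  refine Continuous.add (Continuous.add ?_ ?_) continuous_const
  · exact continuous_finsetSum _ fun j _ => (h0 j _).mul continuous_const
  · exact continuous_finsetSum _ fun j _ => (continuous_star.comp (h0 j _)).mul continuous_const

/-- the ratio of the entries -/
noncomputable def rat (t : H) (f f' : Fin K → H → ℂ) (x : H) : ℂ :=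
  if x = 0 ∨ x = t then 1 else ∑ j, (f' j x * star (f j x) + star (f' j (-x)) * f j (-x))

/-- common support of two sequences -/
def Cs (t : H) (f f' : Fin K → H → ℂ) : Prop :=
  ∀ h, h ≠ 0 → h ≠ t → ∃ j, ((‖f j h‖ = 1 ∧ f j (-h) = 0 ∧ ‖f' j h‖ = 1 ∧ f' j (-h) = 0) ∨
      (f j h = 0 ∧ ‖f j (-h)‖ = 1 ∧ f' j h = 0 ∧ ‖f' j (-h)‖ = 1)) ∧
    ∀ i, i ≠ j → f i h = 0 ∧ f i (-h) = 0 ∧ f' i h = 0 ∧ f' i (-h) = 0

lemma star_mul_self_one {z : ℂ} (h : ‖z‖ = 1) : z * star z = 1 := by
  rw [Complex.star_def, Complex.mul_conj, Complex.normSq_eq_norm_sq, h]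
  norm_num

lemma star_mul_self_one' {z : ℂ} (h : ‖z‖ = 1) : star z * z = 1 := by
  rw [mul_comm, star_mul_self_one h]

/-- what the ratio is -/
lemma rat_cases {t : H} {f f' : Fin K → H → ℂ} (hc : Cs t f f') {x : H} (hx0 : x ≠ 0)
    (hxt : x ≠ t) :
    ∃ j, ((‖f j x‖ = 1 ∧ f j (-x) = 0 ∧ ‖f' j x‖ = 1 ∧ f' j (-x) = 0 ∧
        rat t f f' x = f' j x * star (f j x)) ∨
      (f j x = 0 ∧ ‖f j (-x)‖ = 1 ∧ f' j x = 0 ∧ ‖f' j (-x)‖ = 1 ∧
        rat t f f' x = star (f' j (-x)) * f j (-x))) ∧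
    ∀ i, i ≠ j → f i x = 0 ∧ f i (-x) = 0 ∧ f' i x = 0 ∧ f' i (-x) = 0 := by
  obtain ⟨j, hj, hi⟩ := hc x hx0 hxt
  have hr : rat t f f' x = f' j x * star (f j x) + star (f' j (-x)) * f j (-x) := by
    rw [rat, if_neg (by push Not; exact ⟨hx0, hxt⟩), Finset.sum_eq_single j]
    · intro i _ hij
      obtain ⟨h1, h2, h3, h4⟩ := hi i hij
      rw [h1, h2, star_zero, mul_zero, mul_zero, add_zero]
    · intro h; exact absurd (Finset.mem_univ j) h
  refine ⟨j, ?_, hi⟩
  rcases hj with ⟨h1, h2, h3, h4⟩ | ⟨h1, h2, h3, h4⟩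
  · exact Or.inl ⟨h1, h2, h3, h4, by rw [hr, h2, mul_zero, add_zero]⟩
  · exact Or.inr ⟨h1, h2, h3, h4, by rw [hr, h1, star_zero, mul_zero, zero_add]⟩

lemma rat_norm {t : H} {f f' : Fin K → H → ℂ} (hc : Cs t f f') (x : H) :
    ‖rat t f f' x‖ = 1 := by
  by_cases h : x = 0 ∨ x = t
  · rw [rat, if_pos h, norm_one]
  · push Not at h
    obtain ⟨j, hj, _⟩ := rat_cases hc h.1 h.2
    rcases hj with ⟨h1, h2, h3, h4, h5⟩ | ⟨h1, h2, h3, h4, h5⟩
    · rw [h5, norm_mul, norm_star, h1, h3, one_mul]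
    · rw [h5, norm_mul, norm_star, h2, h4, one_mul]

lemma rat_neg {t : H} (ht : t + t = 0) (f f' : Fin K → H → ℂ) (x : H) :
    rat t f f' (-x) = star (rat t f f' x) := by
  have hn : -t = t := neg_eq_of_add_eq_zero_left ht
  have e : (-x = 0 ∨ -x = t) ↔ (x = 0 ∨ x = t) := by
    rw [neg_eq_zero]
    constructor
    · rintro (h | h)
      · exact Or.inl h
      · exact Or.inr (by rw [← hn, ← h, neg_neg])
    · rintro (h | h)
      · exact Or.inl h
      · exact Or.inr (by rw [h, hn])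
  by_cases h : x = 0 ∨ x = t
  · rw [rat, rat, if_pos h, if_pos (e.2 h), star_one]
  · rw [rat, rat, if_neg h, if_neg (fun h1 => h (e.1 h1)), star_sum]
    refine Finset.sum_congr rfl fun j _ => ?_
    rw [neg_neg, star_add, star_mul, star_mul, star_star, star_star]
    ring

lemma rat_close {t : H} {f f' : Fin K → H → ℂ} (hc : Cs t f f')
    (hd : ∀ j x, ‖f' j x - f j x‖ < 1) (x : H) : ‖rat t f f' x - 1‖ < 1 := by
  by_cases h : x = 0 ∨ x = t
  · rw [rat, if_pos h, sub_self, norm_zero]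
    exact zero_lt_one
  · push Not at h
    obtain ⟨j, hj, _⟩ := rat_cases hc h.1 h.2
    rcases hj with ⟨h1, h2, h3, h4, h5⟩ | ⟨h1, h2, h3, h4, h5⟩
    · rw [h5, ← star_mul_self_one h1, ← sub_mul, norm_mul, norm_star, h1, mul_one]
      exact hd j x
    · rw [h5, ← star_mul_self_one' h2, ← sub_mul, ← star_sub, norm_mul, norm_star, h2, mul_one]
      exact hd j (-x)

/-- the entries are multiplied by the ratio -/
lemma Sb_rat (F : FlatCAR K ι) {t : H} (ht0 : t ≠ 0) (ht : t + t = 0) {f f' : Fin K → H → ℂ}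
    (hf0 : ∀ j, f j 0 = 0 ∧ f j t = 0) (hf0' : ∀ j, f' j 0 = 0 ∧ f' j t = 0) (hc : Cs t f f')
    (g h : H) (a b : ι) :
    Sb F t f' (g, a) (h, b) = rat t f f' (g - h) * Sb F t f (g, a) (h, b) := by
  have hn : -t = t := neg_eq_of_add_eq_zero_left ht
  rw [Sb_apply, Sb_apply]
  by_cases h1 : g = h
  · subst h1
    rw [sub_self, rat, if_pos (Or.inl rfl), if_pos rfl, if_neg (Ne.symm ht0)]
    simp [(hf0 _).1, (hf0' _).1]
  · by_cases h2 : g - h = t
    · have h3 : h - g = t := by rw [← hn, ← h2, neg_sub]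
      rw [if_neg h1, h2, h3, if_pos rfl, rat, if_pos (Or.inr rfl)]
      simp [(hf0 _).2, (hf0' _).2]
    · rw [if_neg h1, if_neg h2, add_zero, add_zero, add_zero]
      obtain ⟨j, hj, hi⟩ := rat_cases hc (sub_ne_zero.mpr h1) h2
      have h4 : h - g = -(g - h) := by rw [neg_sub]
      have e1 : ∑ i, f i (g - h) * F.φ i a b = f j (g - h) * F.φ j a b :=
        Finset.sum_eq_single j (fun i _ hij => by rw [(hi i hij).1, zero_mul])
          (fun h => absurd (Finset.mem_univ j) h)
      have e2 : ∑ i, f' i (g - h) * F.φ i a b = f' j (g - h) * F.φ j a b :=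
        Finset.sum_eq_single j (fun i _ hij => by rw [(hi i hij).2.2.1, zero_mul])
          (fun h => absurd (Finset.mem_univ j) h)
      have e3 : ∑ i, star (f i (-(g - h))) * star (F.φ i b a) =
          star (f j (-(g - h))) * star (F.φ j b a) :=
        Finset.sum_eq_single j (fun i _ hij => by rw [(hi i hij).2.1, star_zero, zero_mul])
          (fun h => absurd (Finset.mem_univ j) h)
      have e4 : ∑ i, star (f' i (-(g - h))) * star (F.φ i b a) =
          star (f' j (-(g - h))) * star (F.φ j b a) :=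
        Finset.sum_eq_single j (fun i _ hij => by rw [(hi i hij).2.2.2, star_zero, zero_mul])
          (fun h => absurd (Finset.mem_univ j) h)
      rw [h4, e1, e2, e3, e4]
      rcases hj with ⟨h5, h6, h7, h8, h9⟩ | ⟨h5, h6, h7, h8, h9⟩
      · have h10 := star_mul_self_one h5
        rw [h6, h8, h9, star_zero, zero_mul, add_zero, add_zero]
        calc f' j (g - h) * F.φ j a b
            = f' j (g - h) * (f j (g - h) * star (f j (g - h))) * F.φ j a b := by
              rw [h10, mul_one]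
          _ = _ := by ring
      · have h10 := star_mul_self_one h6
        rw [h5, h7, h9, zero_mul, zero_add, zero_add]
        calc star (f' j (-(g - h))) * star (F.φ j b a)
            = star (f' j (-(g - h))) * (f j (-(g - h)) * star (f j (-(g - h)))) *
              star (F.φ j b a) := by rw [h10, mul_one]
          _ = _ := by ring

/-- if the ratio is one the sequences agree -/
lemma eq_of_rat {t : H} {f f' : Fin K → H → ℂ}
    (hf0 : ∀ j, f j 0 = 0 ∧ f j t = 0) (hf0' : ∀ j, f' j 0 = 0 ∧ f' j t = 0) (hc : Cs t f f')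
    (h : ∀ x, rat t f f' x = 1) : f' = f := by
  funext i x
  by_cases h0 : x = 0
  · rw [h0, (hf0 i).1, (hf0' i).1]
  by_cases h1 : x = t
  · rw [h1, (hf0 i).2, (hf0' i).2]
  obtain ⟨j, hj, hi⟩ := rat_cases hc h0 h1
  by_cases hij : i = j
  · subst hij
    rcases hj with ⟨h5, h6, h7, h8, h9⟩ | ⟨h5, h6, h7, h8, h9⟩
    · rw [h x] at h9
      calc f' i x = f' i x * (star (f i x) * f i x) := by
            rw [star_mul_self_one' h5, mul_one]
        _ = (f' i x * star (f i x)) * f i x := by ring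
        _ = f i x := by rw [← h9, one_mul]
    · rw [h5, h7]
  · rw [(hi i hij).1, (hi i hij).2.2.1]

/-- equal triple products: the ratio is a homomorphism -/
lemma rat_hom (F : FlatCAR K ι) (h3 : 3 ≤ Fintype.card ι) {t : H} (ht0 : t ≠ 0)
    (ht : t + t = 0) {f f' : Fin K → H → ℂ}
    (hf0 : ∀ j, f j 0 = 0 ∧ f j t = 0) (hf0' : ∀ j, f' j 0 = 0 ∧ f' j t = 0) (hc : Cs t f f')
    (hS : Sig (Sb F t f))
    (htr : ∀ i j l, trip (Sb F t f) i j l = trip (Sb F t f') i j l) (x y : H) :
    rat t f f' (x + y) = rat t f f' x * rat t f f' y := by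
  obtain ⟨a, b, c, hab, hac, hbc⟩ := Fintype.two_lt_card_iff.1 h3
  have h1 := htr (x + y, a) (y, b) (0, c)
  unfold trip at h1
  rw [Sb_rat F ht0 ht hf0 hf0' hc (x + y) y a b, Sb_rat F ht0 ht hf0 hf0' hc y 0 b c,
    Sb_rat F ht0 ht hf0 hf0' hc 0 (x + y) c a, add_sub_cancel_right, sub_zero, zero_sub,
    rat_neg ht] at h1
  have n1 : ‖Sb F t f (x + y, a) (y, b)‖ = 1 := hS.off _ _ (fun h => hab (Prod.ext_iff.1 h).2)
  have n2 : ‖Sb F t f (y, b) (0, c)‖ = 1 := hS.off _ _ (fun h => hbc (Prod.ext_iff.1 h).2)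
  have n3 : ‖Sb F t f (0, c) (x + y, a)‖ = 1 :=
    hS.off _ _ (fun h => hac (Prod.ext_iff.1 h).2.symm)
  set P := Sb F t f (x + y, a) (y, b) * Sb F t f (y, b) (0, c) * Sb F t f (0, c) (x + y, a)
    with hP
  have hP0 : P ≠ 0 := by
    intro h
    have h2 : ‖P‖ = 1 := by rw [hP, norm_mul, norm_mul, n1, n2, n3]; norm_num
    rw [h, norm_zero] at h2
    exact zero_ne_one h2
  have h2 : P * 1 = P * (rat t f f' x * rat t f f' y * star (rat t f f' (x + y))) := by
    rw [mul_one]
    calc P = _ := h1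
      _ = _ := by rw [hP]; ring
  have h4 := mul_left_cancel₀ hP0 h2
  have h5 := star_mul_self_one' (rat_norm hc (x + y))
  calc rat t f f' (x + y) = 1 * rat t f f' (x + y) := (one_mul _).symm
    _ = rat t f f' x * rat t f f' y * (star (rat t f f' (x + y)) * rat t f f' (x + y)) := by
        rw [h4]; ring
    _ = _ := by rw [h5, mul_one]

/-- TRI -/
theorem TRI (hCHA : S_CHA) : S_TRI := by
  intro K ι _ _ F h3 H _ _ _ t ht0 ht d f hfc hfi hf0 hf hx
  -- the small open set
  set W : Set (Fin d → ℝ) := ⋂ j, ⋂ x, {s | ‖f s j x - f 0 j x‖ < 1 / 2} with hW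
  have hWo : IsOpen W := by
    refine isOpen_iInter_of_finite fun j => isOpen_iInter_of_finite fun x => ?_
    have h1 : Continuous (fun s => f s j x) :=
      (continuous_apply x).comp ((continuous_apply j).comp hfc)
    exact isOpen_lt (h1.sub continuous_const).norm continuous_const
  have h0 : (0 : Fin d → ℝ) ∈ W := by
    rw [hW]
    simp only [Set.mem_iInter, Set.mem_ofPred_eq]
    intro j x
    rw [sub_self, norm_zero]
    norm_num
  obtain ⟨u, huc, hui, huW⟩ := exists_shrink hWo h0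
  have hclose : ∀ p q j x, ‖f (u q) j x - f (u p) j x‖ < 1 := by
    intro p q j x
    have h1 := huW p
    have h2 := huW q
    rw [hW] at h1 h2
    simp only [Set.mem_iInter, Set.mem_ofPred_eq] at h1 h2
    calc ‖f (u q) j x - f (u p) j x‖
        = ‖(f (u q) j x - f 0 j x) - (f (u p) j x - f 0 j x)‖ := by congr 1; ring
      _ ≤ ‖f (u q) j x - f 0 j x‖ + ‖f (u p) j x - f 0 j x‖ := norm_sub_le _ _
      _ < 1 / 2 + 1 / 2 := add_lt_add (h2 j x) (h1 j x)
      _ = 1 := by norm_num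
  have hHp : ∀ s, Hp t (f s) := by
    intro s h hh0 hht
    obtain ⟨j, hj, hi⟩ := hf h hh0 hht
    refine ⟨j, ?_, fun i hij => hi i hij s⟩
    rcases hj with hj | hj
    · exact Or.inl (hj s)
    · exact Or.inr (hj s)
  have hCs : ∀ s s', Cs t (f s) (f s') := by
    intro s s' h hh0 hht
    obtain ⟨j, hj, hi⟩ := hf h hh0 hht
    refine ⟨j, ?_, fun i hij =>
      ⟨(hi i hij s).1, (hi i hij s).2, (hi i hij s').1, (hi i hij s').2⟩⟩
    rcases hj with hj | hj
    · exact Or.inl ⟨(hj s).1, (hj s).2, (hj s').1, (hj s').2⟩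
    · exact Or.inr ⟨(hj s).1, (hj s).2, (hj s').1, (hj s').2⟩
  have hSig : ∀ s, Sig (Sb F t (f s)) := fun s => sig_Sb F ht0 ht (hf0 s) (hHp s) (hx s)
  refine ⟨H × ι, inferInstance, inferInstance, fun p => Sb F t (f (u p)), ?_, ?_, ?_, ?_⟩
  · rw [Fintype.card_prod]; ring
  · exact cont_Sb F t (hfc.comp huc)
  · exact fun p => hSig (u p)
  · intro p q hpq
    have h1 : ∀ x, rat t (f (u p)) (f (u q)) x = 1 :=
      hCHA H (rat t (f (u p)) (f (u q))) (rat_norm (hCs _ _))
        (rat_hom F h3 ht0 ht (hf0 _) (hf0 _) (hCs _ _) (hSig _) hpq)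
        (rat_close (hCs _ _) (hclose p q))
    exact (hui (hfi (eq_of_rat (hf0 _) (hf0 _) (hCs _ _) h1))).symm

end Pool.Agent.H50.U3
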